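import Pool.Agent.Helper29_TDG.Stmts
import Pool.Agent.Helper53_TDG.Comp

/-!
# Squad TDG, module ELA: the exchange lemma for a maximal optimal set
-/

set_option autoImplicit false

namespace Pool.Agent.TDG.H65

open Finset Helper77.TDG

theorem ela (hEL : ELStmt) : ELAStmt := by
  intro V X _ _ _ N Hv U A T hW hA hT
  obtain ⟨hAU, hAG, hAmax⟩ := hA
  obtain ⟨R', T', hTR, hRU, hT'T, hTA, hK, hineq⟩ := hEL V X N Hv U A T hW hAU hT
  have hT'A : T' ⊆ A := by
    intro x hx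
    by_contra hxA
    have hxT : x ∈ T := hT'T hx
    have hxU : x ∈ U \ A := mem_sdiff.2 ⟨(mem_sdiff.1 (hT hxT)).1, hxA⟩
    obtain ⟨K, hKc, hxK⟩ := exists_comp (N := N) hxU
    have h1 := hK K hKc ⟨x, mem_inter.2 ⟨hx, hxK⟩⟩
    have h2 : A ⊂ A ∪ (T ∩ K) := by
      refine (ssubset_iff_of_subset subset_union_left).2 ⟨x, ?_, hxA⟩
      exact mem_union_right _ (mem_inter.2 ⟨hxT, hxK⟩)
    have h3 : A ∪ (T ∩ K) ⊆ U \ Hv :=
      union_subset hAU (inter_subset_left.trans hT)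
    have h4 := hAmax _ h2 h3
    rw [hAG] at h1
    exact absurd h1 (not_le.2 h4)
  have hT' : T' = T ∩ A :=
    Subset.antisymm (subset_inter hT'T hT'A) hTA
  refine ⟨R', hTR, hRU, ?_⟩
  rw [hT', hAG] at hineq
  exact hineq

end Pool.Agent.TDG.H65
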